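import Mathlib

set_option autoImplicit false

/-!
Quantities measuring weak non-compactness, and their consequences of the existence of
`ℓ₁`-subsequences in separated bounded sequences (abstract normed spaces).
-/

noncomputable section

namespace Pool.Agent.R364.EG

open Set Filter Topology
open scoped ENNReal NNReal

universe v w

section quantities
variable (𝕜 : Type v) [RCLike 𝕜] {X : Type w} [NormedAddCommGroup X] [NormedSpace 𝕜 X]

/-- `δ(x_n) = sup_{‖f‖ ≤ 1} inf_n sup_{k,l ≥ n} |f(x_k) - f(x_l)|`. -/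
def deltaOsc (x : ℕ → X) : ℝ≥0∞ :=
  ⨆ (f : StrongDual 𝕜 X) (_ : ‖f‖ ≤ 1), ⨅ n : ℕ, ⨆ (k : ℕ) (_ : n ≤ k) (l : ℕ) (_ : n ≤ l),
    edist (f (x k)) (f (x l))

/-- `ca(x_n) = inf_n sup_{k,l ≥ n} ‖x_k - x_l‖`. -/
def ca {X : Type w} [NormedAddCommGroup X] (x : ℕ → X) : ℝ≥0∞ :=
  ⨅ n : ℕ, ⨆ (k : ℕ) (_ : n ≤ k) (l : ℕ) (_ : n ≤ l), edist (x k) (x l)

/-- The weak* cluster points in `X**` of a sequence in `X`. -/
def clust (y : ℕ → X) : Set (StrongDual 𝕜 (StrongDual 𝕜 X)) :=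
  {φ | MapClusterPt (StrongDual.toWeakDual φ) atTop
    fun k => StrongDual.toWeakDual (NormedSpace.inclusionInDoubleDual 𝕜 X (y k))}

/-- `wck_X(x_n)`: the supremum over all subsequences `(y_k)` of the infimum over all weak* cluster
points `φ ∈ X**` of `(y_k)` of `dist(φ, X)`. -/
def wck (x : ℕ → X) : ℝ≥0∞ :=
  ⨆ (s : ℕ → ℕ) (_ : StrictMono s), ⨅ φ ∈ clust 𝕜 (fun k => x (s k)),
    Metric.infEDist φ (Set.range (NormedSpace.inclusionInDoubleDual 𝕜 X))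

/-- `wk(A) = sup { dist(φ, X) : φ ∈ weak*-closure of A in X** }`. -/
def wk (A : Set X) : ℝ≥0∞ :=
  ⨆ (φ : StrongDual 𝕜 (StrongDual 𝕜 X)) (_ : StrongDual.toWeakDual φ ∈ closure
      ((fun x : X => (StrongDual.toWeakDual (NormedSpace.inclusionInDoubleDual 𝕜 X x) :
        WeakDual 𝕜 (StrongDual 𝕜 X))) '' A)),
    Metric.infEDist φ (Set.range (NormedSpace.inclusionInDoubleDual 𝕜 X))

/-- De Blasi's measure `ω(A)`: the infimum of `sup_{a ∈ A} dist(a, K)` over all nonempty weakly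
compact `K ⊆ X`. -/
def deBlasi (A : Set X) : ℝ≥0∞ :=
  ⨅ K ∈ {K : Set X | K.Nonempty ∧ IsCompact (toWeakSpace 𝕜 X '' K)},
    ⨆ a ∈ A, Metric.infEDist a K

end quantities

/-- Bounded `r`-separated sequences have subsequences on which functionals of norm at most `1` can
be prescribed up to the phase, with values at least `c r`. -/
def SepProp (𝕜 : Type v) [RCLike 𝕜] (X : Type w) [NormedAddCommGroup X] [NormedSpace 𝕜 X]
    (c : ℝ) : Prop :=
  ∀ (x : ℕ → X) (r B : ℝ), 0 < r → (∀ k, ‖x k‖ ≤ B) → (∀ k l, k ≠ l → r ≤ ‖x k - x l‖) →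
    ∃ φ : ℕ → ℕ, StrictMono φ ∧ ∀ u : ℕ → 𝕜, (∀ n, ‖u n‖ = 1) →
      ∃ Φ : StrongDual 𝕜 X, ‖Φ‖ ≤ 1 ∧ ∀ n, c * r ≤ RCLike.re (u n * Φ (x (φ n)))

variable {𝕜 : Type v} [RCLike 𝕜] {X : Type w} [NormedAddCommGroup X] [NormedSpace 𝕜 X]

theorem le_delta {x : ℕ → X} {a : ℝ} (Φ : StrongDual 𝕜 X) (hΦ : ‖Φ‖ ≤ 1)
    (h : ∀ n : ℕ, ∃ k, n ≤ k ∧ ∃ l, n ≤ l ∧ a ≤ dist (Φ (x k)) (Φ (x l))) :
    ENNReal.ofReal a ≤ deltaOsc 𝕜 x := by
  unfold deltaOsc
  refine le_iSup₂_of_le Φ hΦ (le_iInf fun n => ?_)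
  obtain ⟨k, hk, l, hl, h1⟩ := h n
  refine le_iSup₂_of_le k hk (le_iSup₂_of_le l hl ?_)
  rw [edist_dist]
  exact ENNReal.ofReal_le_ofReal h1

/-- a dichotomy for sequences in a metric space -/
theorem dichotomy (y : ℕ → X) {r : ℝ} :
    (∃ φ : ℕ → ℕ, StrictMono φ ∧ ∀ i j, i ≠ j → r ≤ dist (y (φ i)) (y (φ j))) ∨
    (∃ φ : ℕ → ℕ, StrictMono φ ∧ ∀ i j, dist (y (φ i)) (y (φ j)) < 2 * r) := by
  classical
  by_cases h : ∀ (F : Finset ℕ) (N : ℕ), ∃ k, N ≤ k ∧ ∀ f ∈ F, r ≤ dist (y k) (y f)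
  · left
    obtain ⟨φ, -, h2⟩ := exists_seq_of_forall_finset_exists (fun _ : ℕ => True)
      (fun i k => i < k ∧ r ≤ dist (y k) (y i)) (fun s _ => by
        obtain ⟨k, hk, h1⟩ := h s (s.sup id + 1)
        refine ⟨k, trivial, fun i hi => ⟨?_, h1 i hi⟩⟩
        have : i ≤ s.sup id := Finset.le_sup (f := id) hi
        omega)
    refine ⟨φ, fun i j hij => (h2 i j hij).1, fun i j hij => ?_⟩
    rcases lt_or_gt_of_ne hij with h3 | h3
    · rw [dist_comm]; exact (h2 i j h3).2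
    · exact (h2 j i h3).2
  · right
    push Not at h
    obtain ⟨F, N, h1⟩ := h
    have h2 : ∃ f ∈ F, ∃ᶠ k in atTop, dist (y k) (y f) < r := by
      by_contra hcon
      push Not at hcon
      have h3 : ∀ᶠ k in atTop, ∀ f ∈ F, ¬ (dist (y k) (y f) < r) := by
        rw [Filter.eventually_all_finset]
        intro f hf
        filter_upwards [hcon f hf] with k hk using not_lt.2 hk
      obtain ⟨k, hk1, hk2⟩ := (h3.and (eventually_ge_atTop N)).exists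
      obtain ⟨f, hf, h4⟩ := h1 k hk2
      exact hk1 f hf h4
    obtain ⟨f, -, hf⟩ := h2
    obtain ⟨φ, hφ, h3⟩ := extraction_of_frequently_atTop hf
    refine ⟨φ, hφ, fun i j => ?_⟩
    calc dist (y (φ i)) (y (φ j)) ≤ dist (y (φ i)) (y f) + dist (y (φ j)) (y f) :=
          dist_triangle_right _ _ _
      _ < r + r := add_lt_add (h3 i) (h3 j)
      _ = 2 * r := by ring

/-- a separated subsequence gives oscillation -/
theorem sep_delta {c : ℝ} (hX : SepProp 𝕜 X c) {x : ℕ → X} {B : ℝ}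
    (hB : ∀ n, ‖x n‖ ≤ B) {r : ℝ} (hr : 0 < r) (s : ℕ → ℕ) (hs : ∀ n, n ≤ s n)
    (hsep : ∀ i j, i ≠ j → r ≤ dist (x (s i)) (x (s j))) :
    ENNReal.ofReal (2 * (c * r)) ≤ deltaOsc 𝕜 x := by
  obtain ⟨φ, hφ, h⟩ := hX (fun n => x (s n)) r B hr (fun n => hB _) (fun i j hij => by
    rw [← dist_eq_norm]; exact hsep i j hij)
  obtain ⟨Φ, hΦ, h1⟩ := h (fun n => if Even n then 1 else -1) (fun n => by
    split_ifs <;> simp)
  refine le_delta Φ hΦ fun n => ?_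
  refine ⟨s (φ (2 * n)), ?_, s (φ (2 * n + 1)), ?_, ?_⟩
  · have h2 := hφ.id_le (2 * n)
    have h3 := hs (φ (2 * n))
    simp only [id] at h2
    omega
  · have h2 := hφ.id_le (2 * n + 1)
    have h3 := hs (φ (2 * n + 1))
    simp only [id] at h2
    omega
  · have a1 := h1 (2 * n)
    have a2 := h1 (2 * n + 1)
    have e1 : Even (2 * n) := even_two_mul n
    have e2 : ¬ Even (2 * n + 1) := by
      rw [Nat.not_even_iff_odd]; exact odd_two_mul_add_one n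
    rw [if_pos e1, one_mul] at a1
    rw [if_neg e2, neg_one_mul, map_neg] at a2
    rw [dist_eq_norm]
    refine le_trans ?_ (RCLike.re_le_norm _)
    rw [map_sub]
    linarith

/-- the quantitative Schur property -/
theorem ca_le {c : ℝ} (hc : 0 < c) (hc1 : c ≤ 1) (hX : SepProp 𝕜 X c) {x : ℕ → X} {B : ℝ}
    (hB : ∀ n, ‖x n‖ ≤ B) : ca x ≤ ENNReal.ofReal (4 / c) * deltaOsc 𝕜 x := by
  have key : ∀ r : ℝ, 0 < r → ENNReal.ofReal r < ca x →
      ENNReal.ofReal (c * r / 4) ≤ deltaOsc 𝕜 x := by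
    intro r hr hca
    have h1 : ∀ n : ℕ, ∃ k, n ≤ k ∧ ∃ l, n ≤ l ∧ r < dist (x k) (x l) := by
      intro n
      have h2 : ENNReal.ofReal r < ⨆ (k : ℕ) (_ : n ≤ k) (l : ℕ) (_ : n ≤ l),
        edist (x k) (x l) := lt_of_lt_of_le hca (iInf_le _ n)
      simp only [lt_iSup_iff] at h2
      obtain ⟨k, hk, l, hl, h3⟩ := h2
      refine ⟨k, hk, l, hl, ?_⟩
      rw [edist_dist, ENNReal.ofReal_lt_ofReal_iff'] at h3
      exact h3.1
    choose k hk l hl hkl using h1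
    have hr8 : 0 < r / 8 := by positivity
    have fin : 2 * (c * (r / 8)) = c * r / 4 := by ring
    rcases dichotomy (fun n => x (k n)) (r := r / 8) with ⟨φ, hφ, h1⟩ | ⟨φ, hφ, h1⟩
    · rw [← fin]
      exact sep_delta hX hB hr8 (fun n => k (φ n)) (fun n => (hφ.id_le n).trans (hk _)) h1
    rcases dichotomy (fun n => x (l (φ n))) (r := r / 8) with ⟨ψ, hψ, h2⟩ | ⟨ψ, hψ, h2⟩
    · rw [← fin]
      exact sep_delta hX hB hr8 (fun n => l (φ (ψ n)))
        (fun n => (hψ.id_le n).trans ((hφ.id_le _).trans (hl _))) h2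
    · obtain ⟨Φ, hΦ, hΦ1⟩ := exists_dual_vector'' 𝕜 (x (k (φ (ψ 0))) - x (l (φ (ψ 0))))
      refine le_delta Φ hΦ fun n => ⟨k (φ (ψ n)), (hψ.id_le n).trans ((hφ.id_le _).trans (hk _)),
        l (φ (ψ n)), (hψ.id_le n).trans ((hφ.id_le _).trans (hl _)), ?_⟩
      have a1 : dist (x (k (φ (ψ n)))) (x (k (φ (ψ 0)))) < 2 * (r / 8) := h1 (ψ n) (ψ 0)
      have a2 : dist (x (l (φ (ψ n)))) (x (l (φ (ψ 0)))) < 2 * (r / 8) := h2 n 0
      have a3 : r < dist (x (k (φ (ψ 0)))) (x (l (φ (ψ 0)))) := hkl _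
      rw [dist_eq_norm] at a1 a2 a3 ⊢
      have b1 : ‖Φ (x (k (φ (ψ n))) - x (k (φ (ψ 0))))‖ ≤ 1 * ‖x (k (φ (ψ n))) - x (k (φ (ψ 0)))‖ :=
        Φ.le_of_opNorm_le hΦ _
      have b2 : ‖Φ (x (l (φ (ψ n))) - x (l (φ (ψ 0))))‖ ≤ 1 * ‖x (l (φ (ψ n))) - x (l (φ (ψ 0)))‖ :=
        Φ.le_of_opNorm_le hΦ _
      have b3 : ‖Φ (x (k (φ (ψ 0))) - x (l (φ (ψ 0))))‖ = ‖x (k (φ (ψ 0))) - x (l (φ (ψ 0)))‖ := by
        rw [hΦ1]; simp
      have b4 : Φ (x (k (φ (ψ 0))) - x (l (φ (ψ 0)))) =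
          (Φ (x (k (φ (ψ n)))) - Φ (x (l (φ (ψ n))))) -
            Φ (x (k (φ (ψ n))) - x (k (φ (ψ 0)))) + Φ (x (l (φ (ψ n))) - x (l (φ (ψ 0)))) := by
        simp only [map_sub]; ring
      have b5 : ‖x (k (φ (ψ 0))) - x (l (φ (ψ 0)))‖ ≤
          ‖Φ (x (k (φ (ψ n)))) - Φ (x (l (φ (ψ n))))‖ +
            ‖Φ (x (k (φ (ψ n))) - x (k (φ (ψ 0))))‖ + ‖Φ (x (l (φ (ψ n))) - x (l (φ (ψ 0))))‖ := by
        rw [← b3, b4]
        exact (norm_add_le _ _).trans (add_le_add (norm_sub_le _ _) le_rfl)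
      have b6 : c * r / 4 ≤ r / 4 := by
        have : c * r ≤ 1 * r := by gcongr
        linarith
      linarith
  have h4 : 0 < c / 4 := by positivity
  refine le_of_forall_lt fun a ha => ?_
  rcases eq_or_ne (deltaOsc 𝕜 x) ⊤ with htop | htop
  · rw [htop, ENNReal.mul_top (by
      rw [Ne, ENNReal.ofReal_eq_zero, not_le]; positivity)]
    exact lt_of_lt_of_le ha le_top
  obtain ⟨b, hb1, hb2⟩ := exists_between ha
  have hbt : b ≠ ⊤ := ne_top_of_lt hb2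
  have hb0 : 0 < b.toReal := ENNReal.toReal_pos (lt_of_le_of_lt zero_le hb1).ne' hbt
  have h5 := key b.toReal hb0 (by rwa [ENNReal.ofReal_toReal hbt])
  refine lt_of_lt_of_le hb1 ?_
  calc b = ENNReal.ofReal (4 / c) * ENNReal.ofReal (c * b.toReal / 4) := by
        rw [← ENNReal.ofReal_mul (by positivity)]
        rw [show 4 / c * (c * b.toReal / 4) = b.toReal by field_simp, ENNReal.ofReal_toReal hbt]
    _ ≤ _ := by gcongr

theorem wd_tendsto {F : Filter ℕ} {y : ℕ → X} {φ : StrongDual 𝕜 (StrongDual 𝕜 X)} :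
    Tendsto (fun k => StrongDual.toWeakDual (NormedSpace.inclusionInDoubleDual 𝕜 X (y k))) F
      (𝓝 (StrongDual.toWeakDual φ)) ↔
    ∀ f : StrongDual 𝕜 X, Tendsto (fun k => f (y k)) F (𝓝 (φ f)) :=
  tendsto_iff_forall_eval_tendsto_topDualPairing

/-- weak* limits along ultrafilters -/
theorem clust_iff {y : ℕ → X} {φ : StrongDual 𝕜 (StrongDual 𝕜 X)} :
    φ ∈ clust 𝕜 y ↔ ∃ U : Ultrafilter ℕ, (U : Filter ℕ) ≤ atTop ∧
      ∀ f : StrongDual 𝕜 X, Tendsto (fun k => f (y k)) U (𝓝 (φ f)) := by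
  unfold clust
  refine (mapClusterPt_iff_ultrafilter).trans ?_
  refine exists_congr fun U => and_congr_right fun _ => ?_
  exact wd_tendsto

theorem exists_limit (U : Ultrafilter ℕ) {y : ℕ → X} {B : ℝ} (hB : ∀ n, ‖y n‖ ≤ B) :
    ∃ φ : StrongDual 𝕜 (StrongDual 𝕜 X),
      Tendsto (fun k => StrongDual.toWeakDual (NormedSpace.inclusionInDoubleDual 𝕜 X (y k))) U
        (𝓝 (StrongDual.toWeakDual φ)) := by
  have hc := WeakDual.isCompact_closedBall (0 : StrongDual 𝕜 (StrongDual 𝕜 X)) B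
  have hmem : ∀ n, StrongDual.toWeakDual (NormedSpace.inclusionInDoubleDual 𝕜 X (y n)) ∈
      WeakDual.toStrongDual ⁻¹' Metric.closedBall (0 : StrongDual 𝕜 (StrongDual 𝕜 X)) B := by
    intro n
    have h1 := (NormedSpace.double_dual_bound 𝕜 X (y n)).trans (hB n)
    have h2 := (dist_zero_right (NormedSpace.inclusionInDoubleDual 𝕜 X (y n))).le.trans h1
    exact h2
  obtain ⟨ψ, -, hψ⟩ := hc.ultrafilter_le_nhds'
    (U.map fun n => StrongDual.toWeakDual (NormedSpace.inclusionInDoubleDual 𝕜 X (y n)))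
    (Filter.mem_map.2 (Filter.univ_mem' hmem))
  exact ⟨WeakDual.toStrongDual ψ, hψ⟩

theorem wck_le_ca {x : ℕ → X} {B : ℝ} (hB : ∀ n, ‖x n‖ ≤ B) : wck 𝕜 x ≤ ca x := by
  unfold wck
  refine iSup₂_le fun s hs => ?_
  obtain ⟨φ, hφ⟩ := exists_limit (𝕜 := 𝕜) (hyperfilter ℕ) (y := fun k => x (s k)) (fun n => hB _)
  have hU : ((hyperfilter ℕ : Ultrafilter ℕ) : Filter ℕ) ≤ atTop := Nat.hyperfilter_le_atTop
  rw [wd_tendsto] at hφ
  refine (iInf₂_le φ (clust_iff.2 ⟨hyperfilter ℕ, hU, hφ⟩)).trans ?_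
  unfold ca
  refine le_iInf fun n => ?_
  set D : ℝ≥0∞ := ⨆ (k : ℕ) (_ : n ≤ k) (l : ℕ) (_ : n ≤ l), edist (x k) (x l) with hD
  rcases eq_or_ne D ⊤ with hDt | hDt
  · rw [hDt]; exact le_top
  have hkl : ∀ k l, n ≤ k → n ≤ l → ‖x k - x l‖ ≤ D.toReal := by
    intro k l hk hl
    have h1 : edist (x k) (x l) ≤ D := by
      rw [hD]
      exact le_iSup₂_of_le k hk (le_iSup₂_of_le l hl le_rfl)
    rw [← dist_eq_norm, dist_edist]
    exact ENNReal.toReal_mono hDt h1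
  refine (Metric.infEDist_le_edist_of_mem (Set.mem_range_self (x (s n)))).trans ?_
  rw [edist_dist, dist_eq_norm]
  refine ENNReal.ofReal_le_of_le_toReal ?_
  refine ContinuousLinearMap.opNorm_le_bound _ ENNReal.toReal_nonneg fun f => ?_
  have h2 : Tendsto (fun k => f (x (s k)) - f (x (s n))) (hyperfilter ℕ : Filter ℕ)
      (𝓝 (φ f - f (x (s n)))) := (hφ f).sub tendsto_const_nhds
  refine le_of_tendsto h2.norm ?_
  filter_upwards [hU (eventually_ge_atTop n)] with k hk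
  rw [← map_sub]
  refine (f.le_opNorm _).trans ?_
  rw [mul_comm]
  gcongr
  exact hkl _ _ (hk.trans (hs.id_le k)) (hs.id_le n)

/-- quantitative weak sequential completeness -/
theorem wck_le {c : ℝ} (hc : 0 < c) (hc1 : c ≤ 1) (hX : SepProp 𝕜 X c) {x : ℕ → X} {B : ℝ}
    (hB : ∀ n, ‖x n‖ ≤ B) : wck 𝕜 x ≤ ENNReal.ofReal (4 / c) * deltaOsc 𝕜 x :=
  (wck_le_ca hB).trans (ca_le hc hc1 hX hB)

/-! ### measures of weak non-compactness -/

/-- if `ψ` is a weak* limit of `b n` within distance `t < t'` of `x`, then convex combinations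
of a tail of `b` come within distance `t'` of `x` -/
theorem exists_convex [NormedSpace ℝ X] [IsScalarTower ℝ 𝕜 X] {b : ℕ → X}
    {ψ : StrongDual 𝕜 (StrongDual 𝕜 X)}
    (U : Ultrafilter ℕ) (hU : (U : Filter ℕ) ≤ atTop)
    (hψ : ∀ f : StrongDual 𝕜 X, Tendsto (fun k => f (b k)) U (𝓝 (ψ f))) {x : X} {t t' : ℝ}
    (ht : ‖ψ - NormedSpace.inclusionInDoubleDual 𝕜 X x‖ ≤ t) (htt : t < t') (N : ℕ) :
    ∃ v ∈ convexHull ℝ (b '' {n | N ≤ n}), dist v x < t' := by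
  by_contra hcon
  push Not at hcon
  have ht0 : 0 ≤ t :=
    (norm_nonneg (ψ - NormedSpace.inclusionInDoubleDual 𝕜 X x)).trans ht
  have ht' : 0 < t' := ht0.trans_lt htt
  have hdisj : Disjoint (Metric.ball x t') (convexHull ℝ (b '' {n | N ≤ n})) := by
    rw [Set.disjoint_left]
    intro v hv1 hv2
    exact absurd (Metric.mem_ball.1 hv1) (not_lt.2 (hcon v hv2))
  obtain ⟨f, u, hf1, hf2⟩ := RCLike.geometric_hahn_banach_open (𝕜 := 𝕜) (convex_ball x t')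
    Metric.isOpen_ball (convex_convexHull ℝ _) hdisj
  have hb : ∀ n, N ≤ n → u ≤ RCLike.re (f (b n)) := fun n hn =>
    hf2 _ (subset_convexHull ℝ _ ⟨n, hn, rfl⟩)
  have hψu : u ≤ RCLike.re (ψ f) := by
    have h1 : Tendsto (fun k => RCLike.re (f (b k))) U (𝓝 (RCLike.re (ψ f))) :=
      (RCLike.continuous_re.tendsto _).comp (hψ f)
    refine ge_of_tendsto h1 ?_
    filter_upwards [hU (eventually_ge_atTop N)] with k hk using hb k hk
  have hψx : RCLike.re (ψ f) ≤ RCLike.re (f x) + t * ‖f‖ := by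
    have h1 : ‖(ψ - NormedSpace.inclusionInDoubleDual 𝕜 X x) f‖ ≤ t * ‖f‖ :=
      ContinuousLinearMap.le_of_opNorm_le _ ht f
    have h2 : RCLike.re ((ψ - NormedSpace.inclusionInDoubleDual 𝕜 X x) f) ≤ t * ‖f‖ :=
      (RCLike.re_le_norm _).trans h1
    have h3 : (ψ - NormedSpace.inclusionInDoubleDual 𝕜 X x) f = ψ f - f x := rfl
    rw [h3, map_sub] at h2
    linarith
  rcases eq_or_ne f 0 with hf0 | hf0
  · have h1 := hf1 x (Metric.mem_ball_self ht')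
    have h2 := hb N le_rfl
    rw [hf0] at h1 h2
    simp at h1 h2
    linarith
  have hfn : 0 < ‖f‖ := norm_pos_iff.2 hf0
  obtain ⟨h, hh1, hh2⟩ := f.exists_lt_apply_of_lt_opNorm (r := t / t' * ‖f‖) (by
    have : t / t' < 1 := (div_lt_one ht').2 htt
    calc t / t' * ‖f‖ < 1 * ‖f‖ := by gcongr
      _ = ‖f‖ := one_mul _)
  -- rotate `h` so that `f h` is real and nonnegative
  obtain ⟨α, hα1, hα2⟩ : ∃ α : 𝕜, ‖α‖ ≤ 1 ∧ α * f h = (‖f h‖ : 𝕜) := by
    rcases eq_or_ne (f h) 0 with h0 | h0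
    · exact ⟨0, by simp, by simp [h0]⟩
    · refine ⟨(starRingEnd 𝕜) (f h) / (‖f h‖ : 𝕜), ?_, ?_⟩
      · rw [norm_div, RCLike.norm_conj, RCLike.norm_ofReal, abs_norm,
          div_self (norm_ne_zero_iff.2 h0)]
      · have hn : ((‖f h‖ : ℝ) : 𝕜) ≠ 0 := by
          rw [Ne, RCLike.ofReal_eq_zero]; exact norm_ne_zero_iff.2 h0
        rw [div_mul_eq_mul_div, mul_comm, RCLike.mul_conj, sq, mul_div_assoc, div_self hn, mul_one]
  have h1 := hf1 (x + ((t' : 𝕜) * α) • h) (by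
    rw [Metric.mem_ball, dist_eq_norm, add_sub_cancel_left, norm_smul, norm_mul,
      RCLike.norm_ofReal, abs_of_pos ht']
    calc t' * ‖α‖ * ‖h‖ ≤ t' * 1 * ‖h‖ := by gcongr
      _ < t' * 1 * 1 := by gcongr
      _ = t' := by ring)
  have h2 : f (x + ((t' : 𝕜) * α) • h) = f x + ((t' * ‖f h‖ : ℝ) : 𝕜) := by
    rw [map_add, map_smul, smul_eq_mul, mul_assoc, hα2]; push_cast; rfl
  rw [h2, map_add, RCLike.ofReal_re] at h1
  have h3 : t * ‖f‖ < t' * ‖f h‖ := by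
    have : t * ‖f‖ = t' * (t / t' * ‖f‖) := by field_simp
    rw [this]
    gcongr
  linarith

theorem dist_limit {c : ℝ} {r : ℝ} {b : ℕ → X}
    (hb : ∀ u : ℕ → 𝕜, (∀ n, ‖u n‖ = 1) →
      ∃ Φ : StrongDual 𝕜 X, ‖Φ‖ ≤ 1 ∧ ∀ n, c * r ≤ RCLike.re (u n * Φ (b n)))
    {ψ : StrongDual 𝕜 (StrongDual 𝕜 X)}
    (U : Ultrafilter ℕ) (hU : (U : Filter ℕ) ≤ atTop)
    (hψ : ∀ f : StrongDual 𝕜 X, Tendsto (fun k => f (b k)) U (𝓝 (ψ f))) (x : X) :
    c * r ≤ ‖ψ - NormedSpace.inclusionInDoubleDual 𝕜 X x‖ := by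
  classical
  by_contra hlt
  push Not at hlt
  let i1 : NormedSpace ℝ X := NormedSpace.restrictScalars ℝ 𝕜 X
  have i2 : IsScalarTower ℝ 𝕜 X := ⟨fun a z v => by
    change (a • z) • v = ((algebraMap ℝ 𝕜 a) • (z • v))
    rw [Algebra.smul_def, mul_smul]⟩
  obtain ⟨t', ht1, ht2⟩ := exists_between hlt
  obtain ⟨v1, hv1, hd1⟩ := exists_convex U hU hψ (x := x) le_rfl ht1 0
  rw [convexHull_eq_union_convexHull_finite_subsets] at hv1
  simp only [Set.mem_iUnion] at hv1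
  obtain ⟨T, hT, hv1⟩ := hv1
  have hidx : ∀ z ∈ T, ∃ n, b n = z := fun z hz => by
    obtain ⟨n, -, h⟩ := hT hz
    exact ⟨n, h⟩
  choose! idx hidx using hidx
  let N := T.sup idx + 1
  have hN : ∀ z ∈ T, idx z < N := fun z hz => Nat.lt_succ_of_le (Finset.le_sup hz)
  obtain ⟨v2, hv2, hd2⟩ := exists_convex U hU hψ (x := x) le_rfl ht1 N
  obtain ⟨Φ, hΦ, h1⟩ := hb (fun n => if n < N then 1 else -1) (fun n => by
    split_ifs <;> simp)
  have hlin : IsLinearMap ℝ (fun v : X => RCLike.re (Φ v)) :=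
    ⟨fun a z => by simp, fun a z => by
      have : Φ (a • z) = (a : 𝕜) * Φ z := by
        change Φ ((algebraMap ℝ 𝕜 a) • z) = _
        rw [map_smul]; rfl
      rw [this, RCLike.re_ofReal_mul]; rfl⟩
  have c1 : c * r ≤ RCLike.re (Φ v1) := by
    have hconv : Convex ℝ {v : X | c * r ≤ RCLike.re (Φ v)} := convex_halfSpace_ge hlin _
    refine convexHull_min ?_ hconv hv1
    intro z hz
    have h2 := h1 (idx z)
    rw [if_pos (hN z hz), one_mul, hidx z hz] at h2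
    exact h2
  have c2 : RCLike.re (Φ v2) ≤ -(c * r) := by
    have hconv : Convex ℝ {v : X | RCLike.re (Φ v) ≤ -(c * r)} := convex_halfSpace_le hlin _
    refine convexHull_min ?_ hconv hv2
    rintro _ ⟨n, hn, rfl⟩
    have h2 := h1 n
    rw [if_neg (not_lt.2 hn), neg_one_mul, map_neg] at h2
    change RCLike.re (Φ (b n)) ≤ _
    linarith
  have c3 : RCLike.re (Φ (v1 - v2)) ≤ ‖v1 - v2‖ := by
    refine (RCLike.re_le_norm _).trans ?_
    have := Φ.le_of_opNorm_le hΦ (v1 - v2)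
    rwa [one_mul] at this
  rw [map_sub, map_sub] at c3
  have c4 : ‖v1 - v2‖ < 2 * t' := by
    rw [← dist_eq_norm]
    have := dist_triangle_right v1 v2 x
    linarith
  linarith

/-- equivalence of the measures of weak non-compactness -/
theorem deBlasi_le {c : ℝ} (hc : 0 < c) (hX : SepProp 𝕜 X c) {A : Set X} {B : ℝ}
    (hB : ∀ a ∈ A, ‖a‖ ≤ B) : deBlasi 𝕜 A ≤ ENNReal.ofReal (1 / c) * wk 𝕜 A := by
  have key : ∀ r : ℝ, 0 < r → ENNReal.ofReal r < deBlasi 𝕜 A →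
      ENNReal.ofReal (c * r) ≤ wk 𝕜 A := by
    intro r hr hA
    have hfin : ∀ F : Finset X, F.Nonempty → ∃ a ∈ A, ∀ f ∈ F, r ≤ dist f a := by
      intro F hF
      have h1 : ENNReal.ofReal r < ⨆ a ∈ A, Metric.infEDist a (F : Set X) := by
        refine lt_of_lt_of_le hA (iInf₂_le (F : Set X) ⟨hF, ?_⟩)
        exact (F.finite_toSet.image _).isCompact
      simp only [lt_iSup_iff] at h1
      obtain ⟨a, ha, h2⟩ := h1
      refine ⟨a, ha, fun f hf => ?_⟩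
      have h3 := lt_of_lt_of_le h2 (Metric.infEDist_le_edist_of_mem (show f ∈ (F : Set X) from hf))
      rw [edist_dist, ENNReal.ofReal_lt_ofReal_iff', dist_comm] at h3
      exact h3.1.le
    obtain ⟨a, ha, h1⟩ := exists_seq_of_forall_finset_exists (fun z : X => z ∈ A)
      (fun z z' => r ≤ dist z z') (fun s _ => by
        classical
        obtain ⟨a, ha, h⟩ := hfin (insert 0 s) (Finset.insert_nonempty _ _)
        exact ⟨a, ha, fun z hz => h z (Finset.mem_insert_of_mem hz)⟩)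
    obtain ⟨φ, hφ, h2⟩ := hX a r B hr (fun k => hB _ (ha k)) (fun i j hij => by
      rw [← dist_eq_norm]
      rcases lt_or_gt_of_ne hij with h | h
      · exact h1 i j h
      · rw [dist_comm]; exact h1 j i h)
    obtain ⟨ψ, hψ⟩ := exists_limit (𝕜 := 𝕜) (hyperfilter ℕ) (y := fun k => a (φ k))
      (fun n => hB _ (ha _))
    have hU : ((hyperfilter ℕ : Ultrafilter ℕ) : Filter ℕ) ≤ atTop := Nat.hyperfilter_le_atTop
    unfold wk
    refine le_iSup₂_of_le ψ ?_ ?_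
    · exact mem_closure_of_tendsto hψ (Filter.Eventually.of_forall fun k => ⟨a (φ k), ha _, rfl⟩)
    · rw [wd_tendsto] at hψ
      rw [Metric.le_infEDist]
      rintro _ ⟨x, rfl⟩
      rw [edist_dist, dist_eq_norm]
      exact ENNReal.ofReal_le_ofReal
        (dist_limit h2 (hyperfilter ℕ) hU hψ x)
  refine le_of_forall_lt fun a ha => ?_
  rcases eq_or_ne (wk 𝕜 A) ⊤ with htop | htop
  · rw [htop, ENNReal.mul_top (by
      rw [Ne, ENNReal.ofReal_eq_zero, not_le]; positivity)]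
    exact lt_of_lt_of_le ha le_top
  obtain ⟨b, hb1, hb2⟩ := exists_between ha
  have hbt : b ≠ ⊤ := ne_top_of_lt hb2
  have hb0 : 0 < b.toReal := ENNReal.toReal_pos (lt_of_le_of_lt zero_le hb1).ne' hbt
  have h5 := key b.toReal hb0 (by rwa [ENNReal.ofReal_toReal hbt])
  refine lt_of_lt_of_le hb1 ?_
  calc b = ENNReal.ofReal (1 / c) * ENNReal.ofReal (c * b.toReal) := by
        rw [← ENNReal.ofReal_mul (by positivity)]
        rw [show 1 / c * (c * b.toReal) = b.toReal by field_simp, ENNReal.ofReal_toReal hbt]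
    _ ≤ _ := by gcongr

end Pool.Agent.R364.EG
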